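import Pool.Agent.Helper74.DR.St

/-!
# Project DR (MP_26f0da_lc), module COM: completeness of the simulation
-/

set_option autoImplicit false

namespace Pool.Agent.Helper47.DR

open Pool.Agent.Helper74.DR

variable {W : Type}

private theorem fin_tr (code : W → List Bool) : Tr fin ((N0 code true []).map some) [] := by
  have h := tr_cls' [true, true, false] ([] : List (Option Bool))
  simpa [fin, N0, fl] using h

private theorem pre_tr (code : W → List Bool) (s : List W) :
    Tr pre ((N0 code true s).map some) ((N0 code false s).map some) := by
  have e1 : pre = ([true, true, false].map fun t => some (t, false)) ++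
      ([false, false, true].map fun t => some (t, true)) := rfl
  have e2 : (N0 code true s).map some = [true, true, false].map some ++ (s.flatMap code).map some := by
    simp [N0, fl]
  rw [e1, e2, tr_append]
  refine ⟨(s.flatMap code).map some, tr_cls' _ _, ?_⟩
  rw [tr_ops]
  simp [N0, fl]

private theorem guard_tr (σ : List (Option Bool)) :
    Tr [some (true, false), some (true, true)] (some true :: σ) (some true :: σ) := by
  rw [tr_cl]
  refine ⟨some true, σ, rfl, Or.inr rfl, ?_⟩
  rw [tr_op, tr_nil]

private theorem ev_flat (code : W → List Bool) (hC : Cod code) (γ : List W) :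
    Ev (γ.flatMap code) := by
  induction γ with
  | nil => simp [Ev]
  | cons X γ ih =>
    rw [List.flatMap_cons]
    exact ev_append _ _ (hC.1 X) ih

private theorem odd_of (i : Bool) (l : List Bool) (hl : Ev l) : Odd (fl i ++ l).length := by
  obtain ⟨k, hk⟩ := ev_even l hl
  refine ⟨k + 1, ?_⟩
  rw [List.length_append, hk]
  simp [fl]
  ring

private theorem skip_tr (hGC : StGC) (code : W → List Bool) (rk : W → Bool) (hC : Cod code)
    (p : W × List W) (σ : List (Option Bool)) :
    Tr (gd code rk p) (some true :: σ) (some true :: σ) := by
  unfold gd gad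
  rw [tr_append]
  refine ⟨_, guard_tr σ, ?_⟩
  rw [tr_append]
  refine ⟨_, (hGC Bool (rk p.1) (fl false ++ code p.1) (odd_of _ _ (hC.1 p.1)) _).1, ?_⟩
  rw [tr_append]
  exact ⟨_, (hGC Bool (rk p.1) (fl true ++ p.2.flatMap code)
    (odd_of _ _ (ev_flat code hC p.2)) _).2.2.1, guard_tr σ⟩

private theorem use_tr (hGC : StGC) (code : W → List Bool) (rk : W → Bool) (hC : Cod code)
    (X : W) (γ s : List W) :
    Tr (gd code rk (X, γ)) ((N0 code false (X :: s)).map some)
      ((N0 code true (γ ++ s)).map some) := by
  have e1 : (N0 code false (X :: s)).map some =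
      (fl false ++ code X).map some ++ (s.flatMap code).map some := by
    simp [N0]
  have e2 : (N0 code true (γ ++ s)).map some =
      (fl true ++ γ.flatMap code).map some ++ (s.flatMap code).map some := by
    simp [N0]
  have e3 : (fl false ++ code X).map some ++ (s.flatMap code).map some =
      some true :: ((false :: false :: code X).map some ++ (s.flatMap code).map some) := by
    simp [fl]
  have e4 : (fl true ++ γ.flatMap code).map some ++ (s.flatMap code).map some =
      some true :: ((true :: false :: γ.flatMap code).map some ++ (s.flatMap code).map some) := by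
    simp [fl]
  rw [e1, e2]
  unfold gd gad
  rw [tr_append]
  refine ⟨(fl false ++ code X).map some ++ (s.flatMap code).map some, ?_, ?_⟩
  · rw [e3]
    exact guard_tr _
  · rw [tr_append]
    refine ⟨_, (hGC Bool (rk X) (fl false ++ code X) (odd_of _ _ (hC.1 X)) _).2.1, ?_⟩
    rw [tr_append]
    refine ⟨_, (hGC Bool (rk X) (fl true ++ γ.flatMap code)
      (odd_of _ _ (ev_flat code hC γ)) _).2.2.2, ?_⟩
    rw [e4]
    exact guard_tr _

private theorem skips_tr (hGC : StGC) (code : W → List Bool) (rk : W → Bool) (hC : Cod code)
    (l : List (W × List W)) (σ : List (Option Bool)) :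
    Tr (l.flatMap (gd code rk)) (some true :: σ) (some true :: σ) := by
  induction l with
  | nil => exact rfl
  | cons p l ih =>
    rw [List.flatMap_cons, tr_append]
    exact ⟨_, skip_tr hGC code rk hC p σ, ih⟩

private theorem blk_tr (hGC : StGC) (code : W → List Bool) (rk : W → Bool) (hC : Cod code)
    (l : List (W × List W)) (X : W) (γ s : List W) (h : (X, γ) ∈ l) :
    Tr (blk code rk l) ((N0 code true (X :: s)).map some) ((N0 code true (γ ++ s)).map some) := by
  obtain ⟨l₁, l₂, rfl⟩ := List.append_of_mem h
  unfold blk
  rw [tr_append]
  refine ⟨_, pre_tr code (X :: s), ?_⟩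
  rw [List.flatMap_append, tr_append]
  have e1 : (N0 code false (X :: s)).map some =
      some true :: (false :: false :: (X :: s).flatMap code).map some := by
    simp [N0, fl]
  have e2 : (N0 code true (γ ++ s)).map some =
      some true :: (true :: false :: (γ ++ s).flatMap code).map some := by
    simp [N0, fl]
  refine ⟨(N0 code false (X :: s)).map some, ?_, ?_⟩
  · rw [e1]
    exact skips_tr hGC code rk hC l₁ _
  · rw [List.flatMap_cons, tr_append]
    refine ⟨_, use_tr hGC code rk hC X γ s, ?_⟩
    rw [e2]
    exact skips_tr hGC code rk hC l₂ _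

theorem hCOM (hGC : StGC) : StCOM := by
  intro α W code rk hC l s w h
  induction h with
  | nil =>
    rw [List.flatMap_nil, List.nil_append]
    exact fin_tr code
  | step a X γ s w hP _ ih =>
    rw [List.flatMap_cons, List.append_assoc, tr_append]
    exact ⟨_, blk_tr hGC code rk hC (l a) X γ s hP, ih⟩

end Pool.Agent.Helper47.DR
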